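import Pool.Agent.Q229.QP4.Defs

/-!
# Project QP4 of helper229, part C (by helper149)
-/

set_option autoImplicit false

namespace Pool.Agent.Q149.QP4

open Pool.Agent.H619R2.QP (off off_even off_odd Lt lpos lpos_lt card_le_label NT cr Cr)
open Pool.Agent.Q229.QP4 (V3 GV GA loc gadj Tst TOk Crs Inj tst tE Mt Lf CompleteStm)

/-- the hypotheses on the order of the levels and on the test edges -/
structure Lay (N M : ℕ) (te : ℕ → ℕ → ℕ → Prop) (ord : ℕ → ℕ → ℕ) : Prop where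
  rev : ∀ i e e', e < N → e' < N → ord i e < ord i e' → ord (i + 1) e' < ord (i + 1) e
  tlt : ∀ j a b, te j a b → 1 ≤ j ∧ j < M ∧ a < N ∧ b < N ∧ 0 < a ∧ 0 < b
  ext : ∀ j, (∀ c, 0 < c → c < N → ord j 0 < ord j c) ∨ ∀ c, 0 < c → c < N → ord j c < ord j 0
  ncr : ∀ j a b a' b', te j a b → te j a' b' → ord j a < ord j a' → ord j a' < ord j b →
    ord j b < ord j b' → False

section

variable {q N M L T : ℕ} {te : ℕ → ℕ → ℕ → Prop} {ord : ℕ → ℕ → ℕ}

/-- an edge with its left end first -/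
def OE (q N M L T : ℕ) (te : ℕ → ℕ → ℕ → Prop) (ord : ℕ → ℕ → ℕ) (e : V3 × V3) : Prop :=
  GV q N M L T e.1 ∧ GV q N M L T e.2 ∧ gadj q M L te e.1 e.2 ∧ Lt ord e.1 e.2

/-- the edges which cross the edge `(x, y)` and have their left ends to the left of `x` -/
structure RS (q N M L T : ℕ) (te : ℕ → ℕ → ℕ → Prop) (ord : ℕ → ℕ → ℕ)
    (R : Finset (V3 × V3)) (x y : V3) : Prop where
  edge : ∀ e ∈ R, OE q N M L T te ord e
  lx : ∀ e ∈ R, Lt ord e.1 x
  xr : ∀ e ∈ R, Lt ord x e.2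
  ry : ∀ e ∈ R, Lt ord e.2 y
  cr : ∀ e ∈ R, ∀ f ∈ R, e ≠ f → (Lt ord e.1 f.1 ∧ Lt ord e.2 f.2) ∨
    (Lt ord f.1 e.1 ∧ Lt ord f.2 e.2)

variable {R : Finset (V3 × V3)}

theorem RS.left_inj {x y : V3} (h : RS q N M L T te ord R x y) {e f} (he : e ∈ R) (hf : f ∈ R)
    (hef : e.1 = f.1) : e = f := by
  by_contra hne
  rcases h.cr e he f hf hne with h1 | h1
  · rw [hef] at h1
    exact h1.1.irrefl
  · rw [hef] at h1
    exact h1.1.irrefl

theorem RS.right_inj {x y : V3} (h : RS q N M L T te ord R x y) {e f} (he : e ∈ R) (hf : f ∈ R)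
    (hef : e.2 = f.2) : e = f := by
  by_contra hne
  rcases h.cr e he f hf hne with h1 | h1
  · rw [hef] at h1
    exact h1.2.irrefl
  · rw [hef] at h1
    exact h1.2.irrefl

theorem RS.right_inj' {x y : V3} (h : RS q N M L T te ord R x y) {e f} (he : e ∈ R) (hf : f ∈ R)
    (h1 : e.2.1 = f.2.1) (h2 : e.2.2.1 = f.2.2.1) (h3 : e.2.2.2 = f.2.2.2) : e = f := by
  refine h.right_inj he hf ?_
  obtain ⟨e1, ⟨a1, a2, a3⟩⟩ := e
  obtain ⟨f1, ⟨b1, b2, b3⟩⟩ := f
  dsimp only at h1 h2 h3 ⊢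
  rw [h1, h2, h3]

theorem RS.left_inj' {x y : V3} (h : RS q N M L T te ord R x y) {e f} (he : e ∈ R) (hf : f ∈ R)
    (h1 : e.1.1 = f.1.1) (h2 : e.1.2.1 = f.1.2.1) (h3 : e.1.2.2 = f.1.2.2) : e = f := by
  refine h.left_inj he hf ?_
  obtain ⟨⟨a1, a2, a3⟩, e2⟩ := e
  obtain ⟨⟨b1, b2, b3⟩, f2⟩ := f
  dsimp only at h1 h2 h3 ⊢
  rw [h1, h2, h3]

/-- edges which end at a level -/
theorem lev_end {h1 s1 o1 h2 s2 o2 : ℕ} (he : OE q N M L T te ord ((h1, s1, o1), (h2, s2, o2)))
    (hs : s2 % 2 = 1) : h1 = h2 ∧ 1 ≤ h1 ∧ o2 < N ∧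
      ((s1 + 2 = s2 ∧ s1 % 2 = 1 ∧ o1 = o2) ∨ (s1 = 0 ∧ o1 + (q + 3) = L ∧ s2 = 1) ∨
      (s1 = s2 ∧ te (s1 / 2) o1 o2)) := by
  obtain ⟨g1, g2, g3, g4⟩ := he
  unfold GV at g1 g2
  unfold gadj loc at g3
  dsimp only at g1 g2 g3
  rcases g3 with g3 | ⟨g3, g5, g6⟩
  · omega
  · rcases g6 with g6 | g6 | g6 | g6 | g6 | ⟨g6, g7, g8⟩
    · omega
    · omega
    · omega
    · omega
    · omega
    · exact ⟨by omega, g3, by omega, Or.inr (Or.inr ⟨g7.symm, g8⟩)⟩

/-- edges which end at a block or at the last segment -/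
theorem even_end {h1 s1 o1 h2 s2 o2 : ℕ}
    (he : OE q N M L T te ord ((h1, s1, o1), (h2, s2, o2))) (hs : s2 % 2 = 0) :
    (h1 = 0 ∧ s1 = 0 ∧ o1 < q + 3 ∧ 1 ≤ h2) ∨ (h1 = h2 ∧ 1 ≤ h1 ∧
      ((s1 = s2 ∧ (s1 = 0 ∨ s1 = 2 * M + 2) ∧ o1 < o2 ∧ o2 ≤ o1 + (q + 3)) ∨
      (s1 = 2 * M + 1 ∧ s2 = 2 * M + 2 ∧ o2 = q + 2) ∨
      (s1 % 2 = 1 ∧ s2 = s1 + 1 ∧ s2 ≤ 2 * M ∧ o2 < q + 2 ∧ (o2 < q ∨ o1 = 0)))) := by
  obtain ⟨g1, g2, g3, g4⟩ := he
  unfold GV at g1 g2
  unfold gadj loc at g3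
  dsimp only at g1 g2 g3
  rcases g3 with g3 | ⟨g3, g5, g6⟩
  · omega
  · rcases g6 with g6 | g6 | g6 | g6 | g6 | ⟨g6, g7, g8⟩
    · omega
    · omega
    · omega
    · omega
    · omega
    · omega

/-- two edges which cross and end at the same level -/
theorem two_lev (hY : Lay N M te ord) {h1 s1 o1 h2 s2 o2 h3 s3 o3 o4 : ℕ}
    (he : OE q N M L T te ord ((h1, s1, o1), (h2, s2, o2)))
    (hf : OE q N M L T te ord ((h3, s3, o3), (h2, s2, o4))) (hs : s2 % 2 = 1)
    (hl : Lt ord (h1, s1, o1) (h3, s3, o3)) (hr : Lt ord (h2, s2, o2) (h2, s2, o4))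
    (hx : Lt ord (h3, s3, o3) (h2, s2, o2)) : s1 ≠ s2 ∧ s3 = s2 := by
  obtain ⟨a1, a2, a3, a4⟩ := lev_end he hs
  obtain ⟨b1, b2, b3, b4⟩ := lev_end hf hs
  subst a1 b1
  unfold Lt at hl hr hx
  rw [off_odd hs, off_odd hs] at hr
  dsimp only at hl hr hx
  rcases b4 with ⟨b4, b5, b6⟩ | ⟨b4, b5, b6⟩ | ⟨b4, b5⟩
  · -- the second one is a bus edge
    exfalso
    subst b6
    rcases a4 with ⟨a4, a5, a6⟩ | ⟨a4, a5, a6⟩ | ⟨a4, a5⟩
    · subst a6
      have e1 : s3 = s1 := by omega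
      subst e1
      rw [off_odd (by omega), off_odd (by omega)] at hl
      have e2 := hY.rev (s3 / 2) o1 o3 a3 b3 (by omega)
      rw [show s3 / 2 + 1 = s2 / 2 by omega] at e2
      omega
    · omega
    · omega
  · exfalso
    rcases a4 with ⟨a4, a5, a6⟩ | ⟨a4, a5, a6⟩ | ⟨a4, a5⟩
    · omega
    · subst a4 b4
      rw [off_even (by omega), off_even (by omega)] at hl
      omega
    · omega
  · subst b4
    refine ⟨fun h => ?_, rfl⟩
    subst h
    rcases a4 with ⟨a4, a5, a6⟩ | ⟨a4, a5, a6⟩ | ⟨a4, a5⟩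
    · omega
    · omega
    · rw [off_odd hs, off_odd hs] at hl
      rw [off_odd hs, off_odd hs] at hx
      exact hY.ncr (s1 / 2) o1 o2 o3 o4 a5 b5 (by omega) (by omega) (by omega)

/-- the edges of the family which end at the level `s` and come from the left are unique, and so are
the test edges -/
theorem RS.lev_unique (hY : Lay N M te ord) {x y : V3} (h : RS q N M L T te ord R x y) {e f}
    (he : e ∈ R) (hf : f ∈ R) (hh : e.2.1 = f.2.1) (hs : e.2.2.1 = f.2.2.1)
    (hodd : e.2.2.1 % 2 = 1) (hk : e.1.2.1 = e.2.2.1 ↔ f.1.2.1 = f.2.2.1) : e = f := by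
  by_contra hne
  have he' := h.edge e he
  have hf' := h.edge f hf
  have hc := h.cr e he f hf hne
  have x1 := h.lx e he
  have x2 := h.xr e he
  have x3 := h.lx f hf
  have x4 := h.xr f hf
  obtain ⟨⟨h1, s1, o1⟩, ⟨h2, s2, o2⟩⟩ := e
  obtain ⟨⟨h3, s3, o3⟩, ⟨h4, s4, o4⟩⟩ := f
  obtain ⟨x, x', x''⟩ := x
  dsimp only at hh hs hodd hc hk x1 x2 x3 x4
  subst hs hh
  have y1 : Lt ord (h3, s3, o3) (h2, s2, o2) := by
    unfold Lt at x3 x2 ⊢
    dsimp only at x3 x2 ⊢
    omega
  have y2 : Lt ord (h1, s1, o1) (h2, s2, o4) := by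
    unfold Lt at x1 x4 ⊢
    dsimp only at x1 x4 ⊢
    omega
  rcases hc with hc | hc
  · have := two_lev hY he' hf' hodd hc.1 hc.2 y1
    exact this.1 (hk.2 this.2)
  · have := two_lev hY hf' he' hodd hc.1 hc.2 y2
    exact this.1 (hk.1 this.2)

/-- (hub) -/
theorem card_hub {x y : V3} (hR : RS q N M L T te ord R x y) (hx : GV q N M L T x)
    (hx0 : x.1 = 0) : R.card ≤ q + 2 := by
  obtain ⟨h, s, w⟩ := x
  unfold GV at hx
  dsimp only at hx hx0
  have hs : s = 0 ∧ w < q + 3 := by omega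
  obtain ⟨rfl, hw⟩ := hs
  subst hx0
  have key : ∀ e ∈ R, e.1.1 = 0 ∧ e.1.2.1 = 0 ∧ e.1.2.2 < w := by
    intro e he
    have h1 := hR.lx e he
    obtain ⟨⟨c1, s1, o1⟩, e2⟩ := e
    unfold Lt at h1
    dsimp only at h1 ⊢
    have h2 : c1 = 0 ∧ s1 = 0 := by omega
    obtain ⟨rfl, rfl⟩ := h2
    rw [off_even rfl, off_even rfl] at h1
    omega
  refine card_le_label (fun e => e.1.2.2) (fun e he => ?_) (fun e he f hf hef => ?_)
  · exact lt_of_lt_of_le (key e he).2.2 (by omega)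
  · have h1 := key e he
    have h2 := key f hf
    exact hR.left_inj' he hf (by rw [h1.1, h2.1]) (by rw [h1.2.1, h2.2.1]) hef

/-- (A) edges inside of the end segments -/
theorem card_seg {h s o o' : ℕ} (hR : RS q N M L T te ord R (h, s, o) (h, s, o'))
    (hs : s % 2 = 0) (ho : o' ≤ o + (q + 3)) : R.card ≤ q + 2 := by
  have key : ∀ e ∈ R, e.2.1 = h ∧ e.2.2.1 = s ∧ o < e.2.2.2 ∧ e.2.2.2 < o' := by
    intro e he
    have h1 := hR.xr e he
    have h2 := hR.ry e he
    obtain ⟨e1, ⟨h3, s3, o3⟩⟩ := e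
    unfold Lt at h1 h2
    rw [off_even hs] at h1 h2
    dsimp only at h1 h2 ⊢
    have h4 : h3 = h ∧ s3 = s := by omega
    obtain ⟨rfl, rfl⟩ := h4
    rw [off_even hs] at h1 h2
    omega
  refine card_le_label (fun e => e.2.2.2 - (o + 1)) (fun e he => ?_) (fun e he f hf hef => ?_)
  · have := key e he
    omega
  · have h1 := key e he
    have h2 := key f hf
    exact hR.right_inj' he hf (by rw [h1.1, h2.1]) (by rw [h1.2.1, h2.2.1]) (by omega)

/-- (B) edges from the first end segment to level `0` -/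
theorem card_first (hY : Lay N M te ord) {h o c : ℕ}
    (hR : RS q N M L T te ord R (h, 0, o) (h, 1, c)) (hh : 1 ≤ h) (ho : o + (q + 3) = L) :
    R.card ≤ q + 2 := by
  have key : ∀ e ∈ R, e.2.1 = h ∧ e.2.2.1 = 0 ∧ o < e.2.2.2 ∧ e.2.2.2 < L := by
    intro e he
    have h0 := hR.lx e he
    have h1 := hR.xr e he
    have h2 := hR.ry e he
    have h3 := hR.edge e he
    have g := h3.2.1
    obtain ⟨⟨c3, s3, o3⟩, ⟨c4, s4, o4⟩⟩ := e
    unfold Lt at h0 h1 h2
    rw [off_even (show 0 % 2 = 0 by rfl)] at h0 h1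
    unfold GV at g
    dsimp only at h0 h1 h2 g ⊢
    by_cases hs4 : s4 % 2 = 0
    · rw [off_even hs4] at h1 h2
      omega
    · exfalso
      obtain ⟨p1, p2, p3, p4⟩ := lev_end h3 (by omega)
      have hs41 : s4 = 1 := by omega
      rcases p4 with p4 | ⟨p4, p5, p6⟩ | ⟨p4, p5⟩
      · omega
      · subst p4
        rw [off_even (show 0 % 2 = 0 by rfl)] at h0
        omega
      · have := (hY.tlt _ _ _ p5).1
        omega
  refine card_le_label (fun e => e.2.2.2 - (o + 1)) (fun e he => ?_) (fun e he f hf hef => ?_)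
  · have := key e he
    omega
  · have h1 := key e he
    have h2 := key f hf
    exact hR.right_inj' he hf (by rw [h1.1, h2.1]) (by rw [h1.2.1, h2.2.1]) (by omega)

/-- an edge which ends at level `s` excludes hub edges to the next zone -/
theorem no_hub {x y : V3} (hR : RS q N M L T te ord R x y) {e f : V3 × V3} (he : e ∈ R)
    (hf : f ∈ R) (h1 : e.2.1 = f.2.1) (h2 : e.2.2.1 < f.2.2.1) (hh : 1 ≤ e.1.1) : f.1.1 ≠ 0 := by
  intro h0
  have hne : e ≠ f := by
    rintro rfl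
    omega
  rcases hR.cr e he f hf hne with h | h
  · have := h.1
    unfold Lt at this
    omega
  · have := h.2
    unfold Lt at this
    omega

/-- (C) edges from level `M` to the last end segment -/
theorem card_last (hY : Lay N M te ord) {h c : ℕ}
    (hR : RS q N M L T te ord R (h, 2 * M + 1, c) (h, 2 * M + 2, q + 2)) (hh : 1 ≤ h) :
    R.card ≤ q + 2 := by
  have key : ∀ e ∈ R, e.2.1 = h ∧ ((e.2.2.1 = 2 * M + 1 ∧ e.1.1 = h ∧ e.1.2.1 ≠ e.2.2.1) ∨
      (e.2.2.1 = 2 * M + 2 ∧ e.2.2.2 < q + 2 ∧ e.1.1 = 0)) := by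
    intro e he
    have h0 := hR.lx e he
    have h1 := hR.xr e he
    have h2 := hR.ry e he
    have h3 := hR.edge e he
    have g := h3.2.1
    obtain ⟨⟨c3, s3, o3⟩, ⟨c4, s4, o4⟩⟩ := e
    unfold Lt at h0 h1 h2
    rw [off_even (show (2 * M + 2) % 2 = 0 by omega)] at h2
    unfold GV at g
    dsimp only at h0 h1 h2 g ⊢
    by_cases hs4 : s4 % 2 = 0
    · rw [off_even hs4] at h2
      have hs4' : s4 = 2 * M + 2 := by omega
      rcases even_end h3 hs4 with p | ⟨p1, p2, p3⟩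
      · omega
      · omega
    · obtain ⟨p1, p2, p3, p4⟩ := lev_end h3 (by omega)
      have hs4' : s4 = 2 * M + 1 := by omega
      rcases p4 with p4 | ⟨p4, p5, p6⟩ | ⟨p4, p5⟩
      · omega
      · omega
      · have := (hY.tlt _ _ _ p5).2.1
        omega
  refine card_le_label (fun e => if e.2.2.1 = 2 * M + 1 then 0 else e.2.2.2) (fun e he => ?_)
    (fun e he f hf hef => ?_)
  · have := key e he
    split_ifs <;> omega
  · have h1 := key e he
    have h2 := key f hf
    have n1 := fun h3 h4 h5 => no_hub hR he hf h3 h4 h5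
    have n2 := fun h3 h4 h5 => no_hub hR hf he h3 h4 h5
    have h5 : (e.2.2.1 = 2 * M + 1 ∧ f.2.2.1 = 2 * M + 1) ∨ (e.2.2.1 = 2 * M + 2 ∧
        f.2.2.1 = 2 * M + 2 ∧ e.2.2.2 = f.2.2.2) := by
      rcases h1.2 with p | p <;> rcases h2.2 with r | r
      · exact Or.inl ⟨p.1, r.1⟩
      · exact absurd r.2.2 (n1 (by omega) (by omega) (by omega))
      · exact absurd p.2.2 (n2 (by omega) (by omega) (by omega))
      · rw [if_neg (by omega), if_neg (by omega)] at hef
        exact Or.inr ⟨p.1, r.1, hef⟩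
    rcases h5 with ⟨q1, q2⟩ | ⟨q1, q2, q3⟩
    · refine hR.lev_unique hY he hf (by rw [h1.1, h2.1]) (by rw [q1, q2]) (by omega) ?_
      constructor
      · intro h6
        omega
      · intro h6
        omega
    · exact hR.right_inj' he hf (by rw [h1.1, h2.1]) (by rw [q1, q2]) q3

/-- a test edge excludes edges which start at the chain `0` of the same level -/
theorem no_zero (hY : Lay N M te ord) {h s a b : ℕ} (hs : s % 2 = 1)
    (he : OE q N M L T te ord ((h, s, a), (h, s, b)))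
    (h1 : Lt ord (h, s, a) (h, s, 0)) (h2 : Lt ord (h, s, 0) (h, s, b)) : False := by
  obtain ⟨-, -, -, p⟩ := lev_end he hs
  have ht : te (s / 2) a b := by
    rcases p with p | p | p
    · omega
    · omega
    · exact p.2
  obtain ⟨-, -, ha, hb, ha0, hb0⟩ := hY.tlt _ _ _ ht
  unfold Lt at h1 h2
  rw [off_odd hs, off_odd hs] at h1 h2
  dsimp only at h1 h2
  rcases hY.ext (s / 2) with h3 | h3
  · have := h3 a ha0 ha
    omega
  · have := h3 b hb0 hb
    omega

/-- (D) and (E): bus edges, and edges from a level to the next block -/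
theorem card_bus (hY : Lay N M te ord) {h s c : ℕ} {y : V3}
    (hR : RS q N M L T te ord R (h, s, c) y) (hh : 1 ≤ h) (hs : s % 2 = 1) (hsM : s + 1 ≤ 2 * M)
    (key : ∀ e ∈ R, e.2.1 = h ∧ (e.2.2.1 = s ∨ (e.2.2.1 = s + 1 ∧ e.2.2.2 < q + 2))) :
    R.card ≤ q + 2 := by
  classical
  -- the edges which end at level `s`
  have klev : ∀ e ∈ R, e.2.2.1 = s → e.1.1 = h ∧ (e.1.2.1 = s ∨ e.1.2.1 < s) := by
    intro e he hes
    have h3 := hR.edge e he
    have h4 := key e he
    obtain ⟨⟨c3, s3, o3⟩, ⟨c4, s4, o4⟩⟩ := e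
    dsimp only at hes h4 ⊢
    obtain ⟨p1, p2, p3, p4⟩ := lev_end h3 (by omega)
    omega
  -- the edges to the block after an edge which ends at level `s`
  have kblk : ∀ ea ∈ R, ea.2.2.1 = s → ∀ e ∈ R, e.2.2.1 = s + 1 → e.1.1 = h ∧ e.1.2.1 = s ∧
      (e.2.2.2 < q ∨ e.1.2.2 = 0) ∧ Lt ord ea.1 e.1 := by
    intro ea hea hea' e he hes
    have k1 := key ea hea
    have k2 := key e he
    have k3 := klev ea hea hea'
    have k4 := no_hub hR hea he (by rw [k1.1, k2.1]) (by omega) (by omega)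
    have hne : ea ≠ e := by
      rintro rfl
      omega
    have k5 : Lt ord ea.1 e.1 := by
      rcases hR.cr ea hea e he hne with h | h
      · exact h.1
      · have := h.2
        unfold Lt at this
        omega
    have h3 := hR.edge e he
    obtain ⟨⟨c3, s3, o3⟩, ⟨c4, s4, o4⟩⟩ := e
    dsimp only at hes k2 k4 k5 ⊢
    rcases even_end h3 (by omega) with p | ⟨p1, p2, p3⟩
    · omega
    · exact ⟨by omega, by omega, by omega, k5⟩
  by_cases htest : ∃ et ∈ R, et.2.2.1 = s ∧ et.1.2.1 = s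
  · -- there is a test edge
    obtain ⟨et, het, het1, het2⟩ := htest
    have k1 := key et het
    have k3 := klev et het het1
    have kq : ∀ e ∈ R, e.2.2.1 = s + 1 → e.2.2.2 < q := by
      intro e he hes
      have k4 := kblk et het het1 e he hes
      by_contra hcon
      have k5 : e.1.2.2 = 0 := by omega
      have h3 := hR.edge et het
      have x1 := hR.lx e he
      have x2 := hR.xr et het
      obtain ⟨⟨c3, s3, o3⟩, e2⟩ := e
      obtain ⟨⟨c5, s5, o5⟩, ⟨c6, s6, o6⟩⟩ := et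
      dsimp only at hes k4 k5 het1 het2 k1 k3 x1 x2 h3
      obtain ⟨k6, k7, k8, k9⟩ := k4
      obtain ⟨k10, k11⟩ := k3
      obtain ⟨k12, k13⟩ := k1
      subst k5 het1 het2 k6 k7 k12
      subst k10
      refine no_zero hY hs h3 k9 ?_
      unfold Lt at x1 x2 ⊢
      dsimp only at x1 x2 ⊢
      omega
    refine card_le_label (fun e => if e.2.2.1 = s then (if e.1.2.1 = s then q + 1 else q) else
      e.2.2.2) (fun e he => ?_) (fun e he f hf hef => ?_)
    · have k4 := key e he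
      have k5 := kq e he
      split_ifs <;> omega
    · have k4 := key e he
      have k5 := kq e he
      have k6 := key f hf
      have k7 := kq f hf
      have h5 : (e.2.2.1 = s ∧ f.2.2.1 = s ∧ (e.1.2.1 = s ↔ f.1.2.1 = s)) ∨
          (e.2.2.1 = s + 1 ∧ f.2.2.1 = s + 1 ∧ e.2.2.2 = f.2.2.2) := by
        by_cases c1 : e.2.2.1 = s
        · rw [if_pos c1] at hef
          by_cases c3 : f.2.2.1 = s
          · rw [if_pos c3] at hef
            refine Or.inl ⟨c1, c3, fun h => ?_, fun h => ?_⟩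
            · by_contra h'
              rw [if_pos h, if_neg h'] at hef
              omega
            · by_contra h'
              rw [if_neg h', if_pos h] at hef
              omega
          · rw [if_neg c3] at hef
            split_ifs at hef <;> omega
        · rw [if_neg c1] at hef
          by_cases c3 : f.2.2.1 = s
          · rw [if_pos c3] at hef
            split_ifs at hef <;> omega
          · rw [if_neg c3] at hef
            exact Or.inr ⟨by omega, by omega, hef⟩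
      rcases h5 with ⟨q1, q2, q3⟩ | ⟨q1, q2, q3⟩
      · refine hR.lev_unique hY he hf (by rw [k4.1, k6.1]) (by rw [q1, q2]) (by omega) ?_
        rw [q1, q2]
        exact q3
      · exact hR.right_inj' he hf (by rw [k4.1, k6.1]) (by rw [q1, q2]) q3
  · push Not at htest
    by_cases hleft : ∃ ea ∈ R, ea.2.2.1 = s
    · -- there is an edge from the left, but no test edge
      obtain ⟨ea, hea, hea1⟩ := hleft
      refine card_le_label (fun e => if e.2.2.1 = s then q + 1 else min e.2.2.2 q)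
        (fun e he => ?_) (fun e he f hf hef => ?_)
      · have k4 := key e he
        split_ifs <;> omega
      · have k4 := key e he
        have k6 := key f hf
        have k5 := kblk ea hea hea1 e he
        have k7 := kblk ea hea hea1 f hf
        have h5 : (e.2.2.1 = s ∧ f.2.2.1 = s) ∨ (e.2.2.1 = s + 1 ∧ f.2.2.1 = s + 1 ∧
            (e.2.2.2 = f.2.2.2 ∨ (e.1.2.2 = 0 ∧ f.1.2.2 = 0))) := by
          split_ifs at hef <;> omega
        rcases h5 with ⟨q1, q2⟩ | ⟨q1, q2, q3 | q3⟩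
        · refine hR.lev_unique hY he hf (by rw [k4.1, k6.1]) (by rw [q1, q2]) (by omega) ?_
          have t1 := htest e he q1
          have t2 := htest f hf q2
          rw [q1, q2]
          exact ⟨fun h => absurd h t1, fun h => absurd h t2⟩
        · exact hR.right_inj' he hf (by rw [k4.1, k6.1]) (by rw [q1, q2]) q3
        · have k8 := k5 q1
          have k9 := k7 q2
          exact hR.left_inj' he hf (by rw [k8.1, k9.1]) (by rw [k8.2.1, k9.2.1])
            (by rw [q3.1, q3.2])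
    · push Not at hleft
      refine card_le_label (fun e => e.2.2.2) (fun e he => ?_) (fun e he f hf hef => ?_)
      · have k4 := key e he
        have k5 := hleft e he
        omega
      · have k4 := key e he
        have k5 := hleft e he
        have k6 := key f hf
        have k7 := hleft f hf
        exact hR.right_inj' he hf (by rw [k4.1, k6.1]) (by omega) hef

/-- (F) test edges -/
theorem card_test (hY : Lay N M te ord) {h s a b : ℕ}
    (hR : RS q N M L T te ord R (h, s, a) (h, s, b)) (hs : s % 2 = 1) (ht : te (s / 2) a b) :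
    R.card ≤ q + 2 := by
  refine card_le_label (fun e => 0) (fun e he => by omega) (fun e he f hf hef => ?_)
  have key : ∀ e ∈ R, e.2.1 = h ∧ e.2.2.1 = s ∧ e.1.2.1 ≠ s := by
    intro e he
    have h0 := hR.lx e he
    have h1 := hR.xr e he
    have h2 := hR.ry e he
    have h3 := hR.edge e he
    obtain ⟨⟨c3, s3, o3⟩, ⟨c4, s4, o4⟩⟩ := e
    unfold Lt at h0 h1 h2
    rw [off_odd hs] at h0 h1 h2
    dsimp only at h0 h1 h2 ⊢
    have p0 : c4 = h ∧ s4 = s := by omega
    obtain ⟨rfl, rfl⟩ := p0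
    refine ⟨rfl, rfl, fun h4 => ?_⟩
    subst h4
    obtain ⟨p1, p2, p3, p4⟩ := lev_end h3 hs
    have ht' : te (s3 / 2) o3 o4 := by
      rcases p4 with p | p | p
      · omega
      · omega
      · exact p.2
    rw [off_odd hs] at h0 h1 h2
    exact hY.ncr _ _ _ _ _ ht' ht (by omega) (by omega) (by omega)
  have k1 := key e he
  have k2 := key f hf
  refine hR.lev_unique hY he hf (by rw [k1.1, k2.1]) (by rw [k1.2.1, k2.2.1]) (by omega) ?_
  constructor
  · intro h1
    omega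
  · intro h1
    omega

theorem card_R (hY : Lay N M te ord) {x y : V3} (hxy : OE q N M L T te ord (x, y))
    (hR : RS q N M L T te ord R x y) : R.card ≤ q + 2 := by
  obtain ⟨gx, gy, g, hlt⟩ := hxy
  dsimp only at gx gy g hlt
  rcases g with g | ⟨g1, g2, g3⟩
  · exact card_hub hR gx g.1
  · obtain ⟨h, s, o⟩ := x
    obtain ⟨h', s', o'⟩ := y
    dsimp only at g1 g2 g3
    subst g2
    unfold GV at gx gy
    unfold loc at g3
    dsimp only at gx gy g3
    rcases g3 with ⟨q1, q2, q3, q4⟩ | ⟨q1, q2, q3⟩ | ⟨q1, q2, q3⟩ | ⟨q1, q2, q3⟩ |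
      ⟨q1, q2, q3, q4⟩ | ⟨q1, q2, q3⟩
    · subst q1
      exact card_seg hR (by omega) q4
    · subst q1 q3
      exact card_first hY hR g1 q2
    · subst q1 q2 q3
      exact card_last hY hR g1
    · subst q2 q3
      refine card_bus hY hR g1 q1 (by omega) (fun e he => ?_)
      have h0 := hR.lx e he
      have h1 := hR.xr e he
      have h2 := hR.ry e he
      have h3 := hR.edge e he
      have g := h3.2.1
      obtain ⟨⟨c3, s3, o3⟩, ⟨c4, s4, o4⟩⟩ := e
      unfold Lt at h0 h1 h2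
      unfold GV at g
      dsimp only at h0 h1 h2 g ⊢
      by_cases hs4 : s4 = s + 2
      · exfalso
        subst hs4
        obtain ⟨p1, p2, p3, p4⟩ := lev_end h3 (by omega)
        rcases p4 with ⟨p4, p5, p6⟩ | ⟨p4, p5, p6⟩ | ⟨p4, p5⟩
        · have p7 : s3 = s := by omega
          subst p6 p7
          rw [off_odd q1, off_odd q1] at h0
          rw [off_odd (show (s3 + 2) % 2 = 1 by omega),
            off_odd (show (s3 + 2) % 2 = 1 by omega)] at h2
          have := hY.rev (s3 / 2) o3 o' p3 (by omega) (by omega)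
          rw [show s3 / 2 + 1 = (s3 + 2) / 2 by omega] at this
          omega
        · omega
        · omega
      · omega
    · subst q2
      refine card_bus hY hR g1 q1 q3 (fun e he => ?_)
      have h1 := hR.xr e he
      have h2 := hR.ry e he
      have g := (hR.edge e he).2.1
      obtain ⟨⟨c3, s3, o3⟩, ⟨c4, s4, o4⟩⟩ := e
      unfold Lt at h1 h2
      rw [off_even (show (s + 1) % 2 = 0 by omega)] at h2
      unfold GV at g
      dsimp only at h1 h2 g ⊢
      by_cases hs4 : s4 % 2 = 0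
      · rw [off_even hs4] at h2
        omega
      · omega
    · subst q2
      exact card_test hY hR q1 q3

/-- crossing for edges with their left ends first -/
def CrL (ord : ℕ → ℕ → ℕ) (e f : V3 × V3) : Prop :=
  (Lt ord e.1 f.1 ∧ Lt ord f.1 e.2 ∧ Lt ord e.2 f.2) ∨
  (Lt ord f.1 e.1 ∧ Lt ord e.1 f.2 ∧ Lt ord f.2 e.2)

theorem not_twist (hY : Lay N M te ord) {S : Finset (V3 × V3)}
    (hS : ∀ e ∈ S, OE q N M L T te ord e) (hcr : ∀ e ∈ S, ∀ f ∈ S, e ≠ f → CrL ord e f)
    {pos : V3 → ℕ} (hpos : ∀ e ∈ S, ∀ f ∈ S, pos e.1 < pos f.1 ↔ Lt ord e.1 f.1) :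
    S.card ≤ q + 3 := by
  classical
  by_contra hc
  push Not at hc
  have hne : S.Nonempty := by
    rw [← Finset.card_pos]
    omega
  obtain ⟨m, hm, hmax⟩ := S.exists_max_image (fun e => pos e.1) hne
  have hR : RS q N M L T te ord (S.erase m) m.1 m.2 := by
    have key : ∀ e ∈ S.erase m, Lt ord e.1 m.1 ∧ Lt ord m.1 e.2 ∧ Lt ord e.2 m.2 := by
      intro e he
      rw [Finset.mem_erase] at he
      rcases hcr e he.2 m hm he.1 with h | h
      · exact h
      · exfalso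
        have h1 := (hpos m hm e he.2).2 h.1
        have h2 := hmax e he.2
        omega
    refine ⟨fun e he => hS e (Finset.mem_of_mem_erase he), fun e he => (key e he).1,
      fun e he => (key e he).2.1, fun e he => (key e he).2.2, fun e he f hf hne => ?_⟩
    rcases hcr e (Finset.mem_of_mem_erase he) f (Finset.mem_of_mem_erase hf) hne with h | h
    · exact Or.inl ⟨h.1, h.2.2⟩
    · exact Or.inr ⟨h.1, h.2.2⟩
  have := card_R hY (hS m hm) hR
  rw [Finset.card_erase_of_mem hm] at this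
  omega

theorem off_lt {C : ℕ} (hlt : ∀ i e, e < N → ord i e < C) (hC : q + 3 ≤ C) (hC' : L ≤ C)
    {u : V3} (hu : GV q N M L T u) : off ord u < C ∧ u.2.1 < 2 * M + 3 := by
  obtain ⟨h, s, o⟩ := u
  unfold GV at hu
  dsimp only at hu ⊢
  by_cases hs : s % 2 = 1
  · rw [off_odd hs]
    exact ⟨hlt _ _ (by omega), by omega⟩
  · rw [off_even (by omega)]
    omega

/-- the symmetric version of the test edges -/
def sy (te : ℕ → ℕ → ℕ → Prop) (j a b : ℕ) : Prop := te j a b ∨ te j b a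

/-- the orientation of an edge -/
theorem orient_edge (hY : Lay N M (sy te) ord)
    (hoi : ∀ i e e', e < N → e' < N → ord i e = ord i e' → e = e')
    (hne : ∀ j a b, te j a b → a ≠ b) {u v : V3} (hu : GV q N M L T u)
    (hv : GV q N M L T v) (h : gadj q M L te u v) :
    (Lt ord u v ∧ gadj q M L (sy te) u v) ∨ (Lt ord v u ∧ gadj q M L (sy te) v u) := by
  obtain ⟨h1, s, o⟩ := u
  obtain ⟨h2, s', o'⟩ := v
  unfold gadj loc at h
  dsimp only at h
  rcases h with h | ⟨g1, g2, g3⟩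
  · left
    refine ⟨?_, Or.inl h⟩
    unfold Lt
    dsimp only
    omega
  · subst g2
    unfold GV at hu hv
    dsimp only at hu hv
    rcases g3 with g3 | g3 | g3 | g3 | g3 | ⟨g3, g4, g5⟩
    · left
      refine ⟨?_, Or.inr ⟨g1, rfl, Or.inl g3⟩⟩
      unfold Lt
      obtain ⟨rfl, r2, r3, r4⟩ := g3
      rw [off_even (by omega), off_even (by omega)]
      dsimp only
      omega
    · left
      refine ⟨?_, Or.inr ⟨g1, rfl, Or.inr (Or.inl g3)⟩⟩
      unfold Lt
      dsimp only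
      omega
    · left
      refine ⟨?_, Or.inr ⟨g1, rfl, Or.inr (Or.inr (Or.inl g3))⟩⟩
      unfold Lt
      dsimp only
      omega
    · left
      refine ⟨?_, Or.inr ⟨g1, rfl, Or.inr (Or.inr (Or.inr (Or.inl g3)))⟩⟩
      unfold Lt
      dsimp only
      omega
    · left
      refine ⟨?_, Or.inr ⟨g1, rfl, Or.inr (Or.inr (Or.inr (Or.inr (Or.inl g3))))⟩⟩
      unfold Lt
      dsimp only
      omega
    · subst g4
      have t1 := hY.tlt _ _ _ (Or.inl g5)
      have t2 := hne _ _ _ g5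
      have t3 : ord (s' / 2) o ≠ ord (s' / 2) o' := fun h =>
        t2 (hoi _ _ _ t1.2.2.1 t1.2.2.2.1 h)
      rcases lt_or_gt_of_ne t3 with t4 | t4
      · left
        refine ⟨?_, Or.inr ⟨g1, rfl, Or.inr (Or.inr (Or.inr (Or.inr (Or.inr
          ⟨g3, rfl, Or.inl g5⟩))))⟩⟩
        unfold Lt
        rw [off_odd g3, off_odd g3]
        dsimp only
        omega
      · right
        refine ⟨?_, Or.inr ⟨g1, rfl, Or.inr (Or.inr (Or.inr (Or.inr (Or.inr
          ⟨g3, rfl, Or.inr g5⟩))))⟩⟩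
        unfold Lt
        rw [off_odd g3, off_odd g3]
        dsimp only
        omega

theorem complete_ord {C : ℕ} (hlt : ∀ i e, e < N → ord i e < C) (hC : q + 3 ≤ C) (hC' : L ≤ C)
    (hY : Lay N M (sy te) ord) (hoi : ∀ i e e', e < N → e' < N → ord i e = ord i e' → e = e')
    (hne : ∀ j a b, te j a b → a ≠ b) :
    NT (q + 4) (lpos ord (2 * M + 3) C) (GA q N M L T te) := by
  classical
  intro l hl hE hp
  have hltp : ∀ u v, GV q N M L T u → GV q N M L T v →
      (lpos ord (2 * M + 3) C u < lpos ord (2 * M + 3) C v ↔ Lt ord u v) := fun u v hu hv =>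
    lpos_lt (off_lt hlt hC hC' hu).2 (off_lt hlt hC hC' hv).2 (off_lt hlt hC hC' hu).1
      (off_lt hlt hC hC' hv).1
  set orient : V3 × V3 → V3 × V3 := fun e => if Lt ord e.1 e.2 then e else (e.2, e.1) with hor
  have ho : ∀ e ∈ l, OE q N M L T (sy te) ord (orient e) ∧
      (orient e = e ∨ orient e = (e.2, e.1)) := by
    intro e he
    obtain ⟨g1, g2, g3⟩ := hE e he
    have h0 : (Lt ord e.1 e.2 ∧ gadj q M L (sy te) e.1 e.2) ∨
        (Lt ord e.2 e.1 ∧ gadj q M L (sy te) e.2 e.1) := by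
      rcases g3 with g3 | g3
      · exact orient_edge hY hoi hne g1 g2 g3
      · exact (orient_edge hY hoi hne g2 g1 g3).symm
    rw [hor]
    dsimp only
    rcases h0 with h0 | h0
    · rw [if_pos h0.1]
      exact ⟨⟨g1, g2, h0.2, h0.1⟩, Or.inl rfl⟩
    · rw [if_neg (fun h => h.asymm h0.1)]
      exact ⟨⟨g2, g1, h0.2, h0.1⟩, Or.inr rfl⟩
  have hp' : (l.map orient).Pairwise (CrL ord) := by
    rw [List.pairwise_map]
    refine List.Pairwise.imp_of_mem ?_ hp
    intro e f he hf hef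
    obtain ⟨e1, e3⟩ := ho e he
    obtain ⟨f1, f3⟩ := ho f hf
    have hef' : cr (lpos ord (2 * M + 3) C (orient e).1, lpos ord (2 * M + 3) C (orient e).2)
        (lpos ord (2 * M + 3) C (orient f).1, lpos ord (2 * M + 3) C (orient f).2) := by
      unfold Cr cr at hef
      unfold cr
      dsimp only at hef ⊢
      rcases e3 with e3 | e3 <;> rcases f3 with f3 | f3 <;> rw [e3, f3] <;> (try dsimp only) <;>
        omega
    have a1 := (hltp _ _ e1.1 e1.2.1).2 e1.2.2.2
    have a2 := (hltp _ _ f1.1 f1.2.1).2 f1.2.2.2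
    unfold CrL
    rw [← hltp _ _ e1.1 f1.1, ← hltp _ _ f1.1 e1.2.1, ← hltp _ _ e1.2.1 f1.2.1,
      ← hltp _ _ f1.1 e1.1, ← hltp _ _ e1.1 f1.2.1, ← hltp _ _ f1.2.1 e1.2.1]
    unfold cr at hef'
    dsimp only at hef'
    omega
  have hirr : ∀ e, ¬ CrL ord e e := by
    intro e he
    rcases he with he | he
    · exact he.1.irrefl
    · exact he.1.irrefl
  have hnd : (l.map orient).Nodup := by
    refine List.Pairwise.imp ?_ hp'
    intro e f hef hne
    subst hne
    exact hirr _ hef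
  have hsymm : Std.Symm (CrL ord) := by
    refine ⟨fun e f hef => ?_⟩
    rcases hef with hef | hef
    · exact Or.inr hef
    · exact Or.inl hef
  have hall : ∀ e ∈ l.map orient, OE q N M L T (sy te) ord e := by
    intro e he
    rw [List.mem_map] at he
    obtain ⟨f, hf, rfl⟩ := he
    exact (ho f hf).1
  have := not_twist (S := (l.map orient).toFinset) (pos := lpos ord (2 * M + 3) C) hY
    (fun e he => hall e (List.mem_toFinset.1 he))
    (fun e he f hf hne => hp'.forall (List.mem_toFinset.1 he) (List.mem_toFinset.1 hf) hne)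
    (fun e he f hf => hltp _ _ (hall e (List.mem_toFinset.1 he)).1
      (hall f (List.mem_toFinset.1 hf)).1)
  rw [List.toFinset_card_of_nodup hnd, List.length_map, hl] at this
  omega

theorem lpos_inj {C : ℕ} (hlt : ∀ i e, e < N → ord i e < C) (hC : q + 3 ≤ C) (hC' : L ≤ C)
    (hoi : ∀ i e e', e < N → e' < N → ord i e = ord i e' → e = e') {u v : V3}
    (hu : GV q N M L T u) (hv : GV q N M L T v)
    (huv : lpos ord (2 * M + 3) C u = lpos ord (2 * M + 3) C v) : u = v := by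
  have h1 := off_lt hlt hC hC' hu
  have h2 := off_lt hlt hC hC' hv
  have n1 := (lpos_lt (A := 2 * M + 3) h1.2 h2.2 h1.1 h2.1).not
  have n2 := (lpos_lt (A := 2 * M + 3) h2.2 h1.2 h2.1 h1.1).not
  have m1 := n1.1 (by omega)
  have m2 := n2.1 (by omega)
  unfold Lt at m1 m2
  obtain ⟨h, s, o⟩ := u
  obtain ⟨h', s', o'⟩ := v
  dsimp only at m1 m2
  have e1 : h = h' ∧ s = s' := by omega
  obtain ⟨rfl, rfl⟩ := e1
  unfold GV at hu hv
  dsimp only at hu hv
  by_cases hs : s % 2 = 1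
  · rw [off_odd hs, off_odd hs] at m1 m2
    rw [hoi (s / 2) o o' (by omega) (by omega) (by omega)]
  · rw [off_even (by omega), off_even (by omega)] at m1 m2
    rw [show o = o' by omega]

end

/-- the order of the chains at level `j` -/
def od (K : ℕ) (σ : ℕ → ℕ) (j c : ℕ) : ℕ := if j % 2 = 0 then σ c else K - σ c

/-- the pairs of a test which do not cross -/
theorem ncr_pair {s : ℕ → ℕ} {t : Tst} (h : ¬ Crs s t) {a b a' b' : ℕ}
    (hab : (a = t.1.1 ∧ b = t.1.2) ∨ (a = t.1.2 ∧ b = t.1.1) ∨ (a = t.2.1 ∧ b = t.2.2) ∨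
      (a = t.2.2 ∧ b = t.2.1))
    (hab' : (a' = t.1.1 ∧ b' = t.1.2) ∨ (a' = t.1.2 ∧ b' = t.1.1) ∨ (a' = t.2.1 ∧ b' = t.2.2) ∨
      (a' = t.2.2 ∧ b' = t.2.1))
    (hd : s t.1.1 ≠ s t.2.1 ∧ s t.1.1 ≠ s t.2.2 ∧ s t.1.2 ≠ s t.2.1 ∧ s t.1.2 ≠ s t.2.2) :
    ¬ (s a < s a' ∧ s a' < s b ∧ s b < s b') ∧ ¬ (s b' < s b ∧ s b < s a' ∧ s a' < s a) := by
  unfold Crs Pool.Agent.Q229.QP4.btw at h
  obtain ⟨⟨x, y⟩, ⟨z, w⟩⟩ := t
  dsimp only at h hab hab' hd
  rcases hab with ⟨rfl, rfl⟩ | ⟨rfl, rfl⟩ | ⟨rfl, rfl⟩ | ⟨rfl, rfl⟩ <;>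
    rcases hab' with ⟨rfl, rfl⟩ | ⟨rfl, rfl⟩ | ⟨rfl, rfl⟩ | ⟨rfl, rfl⟩ <;> omega

/-- **part C** -/
theorem completeStm : CompleteStm := by
  classical
  intro q N T ts σ hok hinj h0 hcrs
  set M := Mt ts with hM
  obtain ⟨K, hK⟩ : ∃ K, ∀ c < N, σ c ≤ K :=
    ⟨(Finset.range N).sup σ, fun c hc => Finset.le_sup (f := σ) (Finset.mem_range.2 hc)⟩
  have hor : ∀ (j c c' : ℕ), c < N → c' < N → (od K σ j c < od K σ j c' ↔
      (j % 2 = 0 ∧ σ c < σ c') ∨ (j % 2 = 1 ∧ σ c' < σ c)) := by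
    intro j c c' hc hc'
    have h1 := hK c hc
    have h2 := hK c' hc'
    unfold od
    split_ifs <;> omega
  have hoi : ∀ i e e', e < N → e' < N → od K σ i e = od K σ i e' → e = e' := by
    intro i e e' he he' h
    have h1 := hK e he
    have h2 := hK e' he'
    refine hinj e he e' he' ?_
    unfold od at h
    split_ifs at h <;> omega
  -- the test edges
  have hts : ∀ j a b, tE ts j a b → 1 ≤ j ∧ j < M ∧ TOk N (tst ts j) ∧ ¬ Crs σ (tst ts j) := by
    intro j a b h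
    obtain ⟨h1, h2, h3⟩ := h
    have h4 : j - 1 < ts.length := by
      by_contra hcon
      have h5 : tst ts j = ((0, 0), (0, 0)) := List.getD_eq_default _ _ (by omega)
      rw [h5] at h3
      dsimp only at h3
      omega
    have h5 : tst ts j = ts[j - 1] := List.getD_eq_getElem _ _ h4
    have h6 : ts[j - 1] ∈ ts := List.getElem_mem h4
    refine ⟨h1, ?_, ?_, ?_⟩
    · rw [hM]
      unfold Mt
      omega
    · rw [h5]
      exact hok _ h6
    · rw [h5]
      exact hcrs _ h6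
  have hsy : ∀ j a b, sy (tE ts) j a b → (1 ≤ j ∧ j < M ∧ TOk N (tst ts j) ∧
      ¬ Crs σ (tst ts j)) ∧ ((a = (tst ts j).1.1 ∧ b = (tst ts j).1.2) ∨
        (a = (tst ts j).1.2 ∧ b = (tst ts j).1.1) ∨ (a = (tst ts j).2.1 ∧ b = (tst ts j).2.2) ∨
        (a = (tst ts j).2.2 ∧ b = (tst ts j).2.1)) := by
    intro j a b h
    rcases h with h | h
    · exact ⟨hts _ _ _ h, h.2.2⟩
    · refine ⟨hts _ _ _ h, ?_⟩
      rcases h.2.2 with h1 | h1 | h1 | h1
      · exact Or.inr (Or.inl h1.symm)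
      · exact Or.inl h1.symm
      · exact Or.inr (Or.inr (Or.inr h1.symm))
      · exact Or.inr (Or.inr (Or.inl h1.symm))
  have hY : Lay N M (sy (tE ts)) (od K σ) := by
    refine ⟨?_, ?_, ?_, ?_⟩
    · intro i e e' he he' h
      rw [hor _ _ _ he he'] at h
      rw [hor _ _ _ he' he]
      omega
    · intro j a b h
      obtain ⟨⟨h1, h2, h3, -⟩, h4⟩ := hsy j a b h
      unfold TOk at h3
      refine ⟨h1, h2, ?_⟩
      rcases h4 with ⟨rfl, rfl⟩ | ⟨rfl, rfl⟩ | ⟨rfl, rfl⟩ | ⟨rfl, rfl⟩ <;> omega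
    · intro j
      rcases Nat.eq_zero_or_pos N with hN | hN
      · exact Or.inl fun c _ hc => by omega
      · rcases Nat.mod_two_eq_zero_or_one j with hj | hj
        · left
          intro c hc0 hc
          rw [hor _ _ _ hN hc]
          exact Or.inl ⟨hj, h0 c hc0 hc⟩
        · right
          intro c hc0 hc
          rw [hor _ _ _ hc hN]
          exact Or.inr ⟨hj, h0 c hc0 hc⟩
    · intro j a b a' b' h h' h1 h2 h3
      obtain ⟨⟨g1, g2, g3, g4⟩, g5⟩ := hsy j a b h
      obtain ⟨-, g6⟩ := hsy j a' b' h'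
      have hn : ∀ {x y : ℕ}, x < N → y < N → x ≠ y → σ x ≠ σ y :=
        fun hx hy hxy hc => hxy (hinj _ hx _ hy hc)
      obtain ⟨t1, t2, t3, t4, t5, t6, t7, t8, t9, t10⟩ := g3
      have g7 := ncr_pair g4 g5 g6 ⟨hn t1.2 t3.2 t6, hn t1.2 t4.2 t7, hn t2.2 t3.2 t8,
        hn t2.2 t4.2 t9⟩
      have ha : a < N ∧ b < N := by
        rcases g5 with ⟨rfl, rfl⟩ | ⟨rfl, rfl⟩ | ⟨rfl, rfl⟩ | ⟨rfl, rfl⟩ <;>
          first
          | exact ⟨t1.2, t2.2⟩
          | exact ⟨t2.2, t1.2⟩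
          | exact ⟨t3.2, t4.2⟩
          | exact ⟨t4.2, t3.2⟩
      have ha' : a' < N ∧ b' < N := by
        rcases g6 with ⟨rfl, rfl⟩ | ⟨rfl, rfl⟩ | ⟨rfl, rfl⟩ | ⟨rfl, rfl⟩ <;>
          first
          | exact ⟨t1.2, t2.2⟩
          | exact ⟨t2.2, t1.2⟩
          | exact ⟨t3.2, t4.2⟩
          | exact ⟨t4.2, t3.2⟩
      rw [hor _ _ _ ha.1 ha'.1] at h1
      rw [hor _ _ _ ha'.1 ha.2] at h2
      rw [hor _ _ _ ha.2 ha'.2] at h3
      omega
  have hlt : ∀ i e, e < N → od K σ i e < K + Lf q M + q + 4 := by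
    intro i e he
    have h1 := hK e he
    unfold od
    split_ifs <;> omega
  refine ⟨lpos (od K σ) (2 * M + 3) (K + Lf q M + q + 4), ?_, ?_⟩
  · intro u v hu hv huv
    exact lpos_inj hlt (by omega) (by omega) hoi hu hv huv
  · exact complete_ord hlt (by omega) (by omega) hY hoi (fun j a b h => by
      have := h.2.1
      omega)

end Pool.Agent.Q149.QP4
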