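import Pool.Agent.Q229.QP4.Defs

/-!
# Project QP4 of helper229, part A2 (by helper149)
-/

set_option autoImplicit false

namespace Pool.Agent.Q149.QP4

open Pool.Agent.Q229.QP4

/-! ### chains and copies -/

theorem mem_pr {a b : ℕ} {l₁ l₂ : List ℕ} : (a, b) ∈ l₁.product l₂ ↔ a ∈ l₁ ∧ b ∈ l₂ :=
  List.pair_mem_product

theorem mem_blT {q E : ℕ} {t t' : Tst} : t' ∈ blT q E t ↔ ∃ u₁ u₂ u₃ u₄ : ℕ, u₁ < cpf q E ∧
    u₂ < cpf q E ∧ u₃ < cpf q E ∧ u₄ < cpf q E ∧
    t' = ((ch q E t.1.1 u₁, ch q E t.1.2 u₂), (ch q E t.2.1 u₃, ch q E t.2.2 u₄)) := by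
  unfold blT
  simp only [List.mem_flatMap, List.mem_map, mem_pr, List.mem_range, Prod.exists]
  constructor
  · rintro ⟨a, b, ⟨ha, hb⟩, c, d, ⟨hc, hd⟩, rfl⟩
    exact ⟨a, b, c, d, ha, hb, hc, hd, rfl⟩
  · rintro ⟨a, b, c, d, ha, hb, hc, hd, rfl⟩
    exact ⟨a, b, ⟨ha, hb⟩, c, d, ⟨hc, hd⟩, rfl⟩

theorem mem_chT {q E : ℕ} {l : List Tst} {t' : Tst} : t' ∈ chT q E l ↔ ∃ t ∈ l,
    ∃ u₁ u₂ u₃ u₄ : ℕ, u₁ < cpf q E ∧ u₂ < cpf q E ∧ u₃ < cpf q E ∧ u₄ < cpf q E ∧
    t' = ((ch q E t.1.1 u₁, ch q E t.1.2 u₂), (ch q E t.2.1 u₃, ch q E t.2.2 u₄)) := by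
  unfold chT
  simp only [List.mem_flatMap, mem_blT]

theorem mul_add_lt {C x y u v : ℕ} (hxy : x < y) (hu : u < C) : x * C + u < y * C + v := by
  have h1 : (x + 1) * C ≤ y * C := Nat.mul_le_mul_right C hxy
  have h2 : (x + 1) * C = x * C + C := by ring
  omega

theorem ch_lt {q E e u : ℕ} (he : e < E) (hu : u < cpf q E) : ch q E e u < Nf q E := by
  unfold ch Nf
  have := mul_add_lt (v := 0) he hu
  omega

theorem ch_pos (q E e u : ℕ) : 0 < ch q E e u := by
  unfold ch
  omega

theorem ch_ne {q E e e' u u' : ℕ} (hne : e ≠ e') (hu : u < cpf q E) (hu' : u' < cpf q E) :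
    ch q E e u ≠ ch q E e' u' := by
  unfold ch
  rcases Nat.lt_or_gt_of_ne hne with h | h
  · have := mul_add_lt (v := u') h hu
    omega
  · have := mul_add_lt (v := u) h hu'
    omega

/-! ### the rank -/

/-- the number of chains in front of `c` -/
def rk (N : ℕ) (s : ℕ → ℕ) (c : ℕ) : ℕ := ((Finset.range N).filter fun z => s z < s c).card

theorem rk_lt {N : ℕ} {s : ℕ → ℕ} {c c' : ℕ} (hc : c < N) (h : s c < s c') :
    rk N s c < rk N s c' := by
  unfold rk
  apply Finset.card_lt_card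
  rw [Finset.ssubset_iff_of_subset]
  · refine ⟨c, ?_, ?_⟩
    · simp only [Finset.mem_filter, Finset.mem_range]
      exact ⟨hc, h⟩
    · simp
  · intro z hz
    simp only [Finset.mem_filter, Finset.mem_range] at hz ⊢
    exact ⟨hz.1, hz.2.trans h⟩

theorem rk_inj {N : ℕ} {s : ℕ → ℕ} (hs : Inj N s) {c c' : ℕ} (hc : c < N) (hc' : c' < N)
    (h : rk N s c = rk N s c') : c = c' := by
  rcases lt_trichotomy (s c) (s c') with h1 | h1 | h1
  · exact absurd h (rk_lt hc h1).ne
  · exact hs c hc c' hc' h1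
  · exact absurd h (rk_lt hc' h1).ne'

theorem btw_card {N : ℕ} {s : ℕ → ℕ} (hs : Inj N s) {x y : ℕ} (hx : x < N) (hxy : s x < s y) :
    ((Finset.range N).filter fun z => s x < s z ∧ s z < s y).card + 1 + rk N s x = rk N s y := by
  have h1 : ((Finset.range N).filter fun z => s z < s y) =
      ((Finset.range N).filter fun z => s x < s z ∧ s z < s y) ∪
        (insert x ((Finset.range N).filter fun z => s z < s x)) := by
    ext z
    simp only [Finset.mem_filter, Finset.mem_range, Finset.mem_union, Finset.mem_insert]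
    constructor
    · rintro ⟨hz, hzy⟩
      rcases lt_trichotomy (s z) (s x) with h | h | h
      · exact Or.inr (Or.inr ⟨hz, h⟩)
      · exact Or.inr (Or.inl (hs z hz x hx h))
      · exact Or.inl ⟨hz, h, hzy⟩
    · rintro (⟨hz, h, h'⟩ | rfl | ⟨hz, h⟩)
      · exact ⟨hz, h'⟩
      · exact ⟨hx, hxy⟩
      · exact ⟨hz, h.trans hxy⟩
  unfold rk
  rw [h1, Finset.card_union_of_disjoint, Finset.card_insert_of_notMem]
  · ring
  · simp
  · rw [Finset.disjoint_left]
    intro z hz hz'
    simp only [Finset.mem_filter, Finset.mem_range, Finset.mem_insert] at hz hz'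
    rcases hz' with rfl | ⟨-, h⟩
    · exact lt_irrefl _ hz.2.1
    · exact lt_asymm h hz.2.1

/-- the greedy choice of the representatives -/
theorem greedy {q E : ℕ} {s : ℕ → ℕ} (hs : Inj (Nf q E) s) : ∀ m ≤ E, ∃ U : ℕ → ℕ,
    (∀ e < m, U e < cpf q E) ∧ ∀ e < m, ∀ e' < e,
      rk (Nf q E) s (ch q E e' (U e')) + (q + 3) ≤ rk (Nf q E) s (ch q E e (U e)) ∨
      rk (Nf q E) s (ch q E e (U e)) + (q + 3) ≤ rk (Nf q E) s (ch q E e' (U e')) := by
  intro m
  induction m with
  | zero =>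
    intro _
    exact ⟨fun _ => 0, fun e he => absurd he (Nat.not_lt_zero e), fun e he =>
      absurd he (Nat.not_lt_zero e)⟩
  | succ m ih =>
    intro hm
    obtain ⟨U, hU1, hU2⟩ := ih (by omega)
    -- a free copy of `m`
    have hfree : ∃ u < cpf q E, ∀ e' < m,
        rk (Nf q E) s (ch q E e' (U e')) + (q + 3) ≤ rk (Nf q E) s (ch q E m u) ∨
        rk (Nf q E) s (ch q E m u) + (q + 3) ≤ rk (Nf q E) s (ch q E e' (U e')) := by
      by_contra hcon
      push Not at hcon
      let B : Finset ℕ := (Finset.range m).biUnion fun e' =>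
        (Finset.range (2 * q + 5)).image fun i => rk (Nf q E) s (ch q E e' (U e')) + i
      have hB : B.card ≤ m * (2 * q + 5) := by
        have h0 := Finset.card_biUnion_le_card_mul (Finset.range m)
          (fun e' => (Finset.range (2 * q + 5)).image
            fun i => rk (Nf q E) s (ch q E e' (U e')) + i) (2 * q + 5)
          (fun e' _ => Finset.card_image_le.trans (by rw [Finset.card_range]))
        rwa [Finset.card_range] at h0
      have hmap : ∀ u ∈ Finset.range (cpf q E), rk (Nf q E) s (ch q E m u) + (q + 2) ∈ B := by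
        intro u hu
        obtain ⟨e', he', h1, h2⟩ := hcon u (Finset.mem_range.1 hu)
        refine Finset.mem_biUnion.2 ⟨e', Finset.mem_range.2 he', Finset.mem_image.2
          ⟨rk (Nf q E) s (ch q E m u) + (q + 2) - rk (Nf q E) s (ch q E e' (U e')), ?_, ?_⟩⟩
        · rw [Finset.mem_range]
          omega
        · omega
      have hinj : Set.InjOn (fun u => rk (Nf q E) s (ch q E m u) + (q + 2))
          (Finset.range (cpf q E) : Set ℕ) := by
        intro u hu u' hu' h
        rw [Finset.coe_range, Set.mem_Iio] at hu hu'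
        have h1 : rk (Nf q E) s (ch q E m u) = rk (Nf q E) s (ch q E m u') := by
          have h0 : rk (Nf q E) s (ch q E m u) + (q + 2) =
            rk (Nf q E) s (ch q E m u') + (q + 2) := h
          omega
        have h2 := rk_inj hs (ch_lt (by omega) hu) (ch_lt (by omega) hu') h1
        unfold ch at h2
        omega
      have h3 := Finset.card_le_card_of_injOn _ hmap hinj
      rw [Finset.card_range] at h3
      have h4 : cpf q E ≤ m * (2 * q + 5) := h3.trans hB
      unfold cpf at h4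
      have h5 : m * (2 * q + 5) ≤ E * (2 * q + 5) := Nat.mul_le_mul_right _ (by omega)
      have h6 : E * (2 * q + 5) < 2 * (q + 4) * E := by
        have hE : 0 < E := by omega
        have : E * (2 * q + 5) < E * (2 * q + 8) := Nat.mul_lt_mul_of_pos_left (by omega) hE
        calc E * (2 * q + 5) < E * (2 * q + 8) := this
          _ = 2 * (q + 4) * E := by ring
      omega
    obtain ⟨u, hu, hu2⟩ := hfree
    refine ⟨fun e => if e = m then u else U e, ?_, ?_⟩
    · intro e he
      dsimp only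
      split_ifs with h
      · exact hu
      · exact hU1 e (by omega)
    · intro e he e' he'
      dsimp only
      have hne : e' ≠ m := by omega
      rw [if_neg hne]
      split_ifs with h
      · subst h
        exact hu2 e' he'
      · exact hU2 e (by omega) e' he'

/-- the two middle points of a crossing pair of pairs -/
theorem middle {a c b d : ℕ} (hac : a ≠ c) (hab : a ≠ b) (had : a ≠ d) (hcb : c ≠ b)
    (hcd : c ≠ d) (hbd : b ≠ d)
    (h : (((a < b ∧ b < c) ∨ (c < b ∧ b < a)) ∧ ¬ ((a < d ∧ d < c) ∨ (c < d ∧ d < a))) ∨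
      (¬ ((a < b ∧ b < c) ∨ (c < b ∧ b < a)) ∧ ((a < d ∧ d < c) ∨ (c < d ∧ d < a)))) :
    ∃ x y : ℕ, x < y ∧ (x = a ∨ x = c ∨ x = b ∨ x = d) ∧ (y = a ∨ y = c ∨ y = b ∨ y = d) ∧
      ∀ z, x < z → z < y → ((a < z ∧ z < c) ∨ (c < z ∧ z < a)) ∧
        ((b < z ∧ z < d) ∨ (d < z ∧ z < b)) := by
  rcases h with ⟨h1 | h1, h2⟩ | ⟨h1, h2 | h2⟩
  · rcases lt_or_gt_of_ne had with h3 | h3
    · exact ⟨b, c, by omega, by omega, by omega, by omega⟩
    · exact ⟨a, b, by omega, by omega, by omega, by omega⟩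
  · rcases lt_or_gt_of_ne had with h3 | h3
    · exact ⟨b, a, by omega, by omega, by omega, by omega⟩
    · exact ⟨c, b, by omega, by omega, by omega, by omega⟩
  · rcases lt_or_gt_of_ne hab with h3 | h3
    · exact ⟨d, c, by omega, by omega, by omega, by omega⟩
    · exact ⟨a, d, by omega, by omega, by omega, by omega⟩
  · rcases lt_or_gt_of_ne hab with h3 | h3
    · exact ⟨d, a, by omega, by omega, by omega, by omega⟩
    · exact ⟨c, d, by omega, by omega, by omega, by omega⟩

theorem sound_copy {q E : ℕ} {l : List Tst} (hl : ∀ t ∈ l, EOk E t) {s : ℕ → ℕ}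
    (hs : Inj (Nf q E) s) (hW : ∀ t ∈ chT q E l, WPass q (Nf q E) s t) :
    ∃ s' : ℕ → ℕ, Inj E s' ∧ ∀ t ∈ l, ¬ Crs s' t := by
  obtain ⟨U, hU1, hU2⟩ := greedy hs E le_rfl
  have hN : ∀ e < E, ch q E e (U e) < Nf q E := fun e he => ch_lt he (hU1 e he)
  have hne : ∀ e < E, ∀ e' < E, e ≠ e' → s (ch q E e (U e)) ≠ s (ch q E e' (U e')) := by
    intro e he e' he' hee h
    exact ch_ne hee (hU1 e he) (hU1 e' he') (hs _ (hN e he) _ (hN e' he') h)
  have hfar : ∀ e < E, ∀ e' < E, s (ch q E e (U e)) < s (ch q E e' (U e')) →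
      rk (Nf q E) s (ch q E e (U e)) + (q + 3) ≤ rk (Nf q E) s (ch q E e' (U e')) := by
    intro e he e' he' h
    have h1 := rk_lt (hN e he) h
    rcases lt_trichotomy e e' with h2 | h2 | h2
    · rcases hU2 e' he' e h2 with h3 | h3
      · exact h3
      · omega
    · subst h2
      exact absurd h (lt_irrefl _)
    · rcases hU2 e he e' h2 with h3 | h3
      · omega
      · exact h3
  refine ⟨fun e => s (ch q E e (U e)), ?_, ?_⟩
  · intro e he e' he' h
    by_contra hee
    exact hne e he e' he' hee h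
  · rintro ⟨⟨a, c⟩, ⟨b, d⟩⟩ ht hcrs
    obtain ⟨ha, hc, hb, hd, hac, hab, had, hcb, hcd, hbd⟩ := hl _ ht
    dsimp only at ha hc hb hd hac hab had hcb hcd hbd
    have hmem : ((ch q E a (U a), ch q E c (U c)), (ch q E b (U b), ch q E d (U d))) ∈
        chT q E l := mem_chT.2 ⟨_, ht, U a, U c, U b, U d, hU1 a ha, hU1 c hc, hU1 b hb,
          hU1 d hd, rfl⟩
    have hw : (inner (Nf q E) s ((ch q E a (U a), ch q E c (U c)),
        (ch q E b (U b), ch q E d (U d)))).ncard ≤ q + 1 := hW _ hmem hcrs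
    obtain ⟨x, y, hxy, hx, hy, hz⟩ := middle (hne a ha c hc hac) (hne a ha b hb hab)
      (hne a ha d hd had) (hne c hc b hb hcb) (hne c hc d hd hcd) (hne b hb d hd hbd) hcrs
    have hx' : ∃ e < E, x = s (ch q E e (U e)) := by
      rcases hx with h | h | h | h
      exacts [⟨a, ha, h⟩, ⟨c, hc, h⟩, ⟨b, hb, h⟩, ⟨d, hd, h⟩]
    have hy' : ∃ e < E, y = s (ch q E e (U e)) := by
      rcases hy with h | h | h | h
      exacts [⟨a, ha, h⟩, ⟨c, hc, h⟩, ⟨b, hb, h⟩, ⟨d, hd, h⟩]
    obtain ⟨e, he, rfl⟩ := hx'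
    obtain ⟨e', he', rfl⟩ := hy'
    have h1 := hfar e he e' he' hxy
    have h2 := btw_card hs (hN e he) hxy
    have h3 : (((Finset.range (Nf q E)).filter fun z =>
        s (ch q E e (U e)) < s z ∧ s z < s (ch q E e' (U e')) : Finset ℕ) : Set ℕ) ⊆
        inner (Nf q E) s ((ch q E a (U a), ch q E c (U c)),
          (ch q E b (U b), ch q E d (U d))) := by
      intro z hz'
      simp only [Finset.coe_filter, Finset.mem_range, Set.mem_ofPred_eq] at hz'
      exact ⟨hz'.1, hz (s z) hz'.2.1 hz'.2.2⟩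
    have hfin : (inner (Nf q E) s ((ch q E a (U a), ch q E c (U c)),
        (ch q E b (U b), ch q E d (U d)))).Finite :=
      (Set.finite_lt_nat (Nf q E)).subset fun z hz => hz.1
    have h4 := Set.ncard_le_ncard h3 hfin
    rw [Set.ncard_coe_finset] at h4
    omega

/-- the order of the chains from an order of the elements -/
def sg (C : ℕ) (s : ℕ → ℕ) (c : ℕ) : ℕ := if c = 0 then 0 else 1 + (s ((c - 1) / C) * C + (c - 1) % C)

theorem sg_ch {q E e u : ℕ} (s : ℕ → ℕ) (hu : u < cpf q E) :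
    sg (cpf q E) s (ch q E e u) = 1 + (s e * cpf q E + u) := by
  have hC : 0 < cpf q E := by omega
  have h1 : ch q E e u ≠ 0 := (ch_pos q E e u).ne'
  have h2 : ch q E e u - 1 = u + cpf q E * e := by
    unfold ch
    rw [Nat.mul_comm e]
    omega
  unfold sg
  rw [if_neg h1, h2, Nat.add_mul_div_left _ _ hC, Nat.add_mul_mod_self_left,
    Nat.div_eq_of_lt hu, Nat.mod_eq_of_lt hu, zero_add]

theorem exists_ch {q E c : ℕ} (h0 : 0 < c) (hc : c < Nf q E) :
    ∃ e < E, ∃ u < cpf q E, c = ch q E e u := by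
  have hC : 0 < cpf q E := by
    by_contra h
    have h1 : cpf q E = 0 := by omega
    unfold Nf at hc
    rw [h1] at hc
    omega
  refine ⟨(c - 1) / cpf q E, ?_, (c - 1) % cpf q E, Nat.mod_lt _ hC, ?_⟩
  · rw [Nat.div_lt_iff_lt_mul hC]
    unfold Nf at hc
    omega
  · unfold ch
    have := Nat.div_add_mod' (c - 1) (cpf q E)
    omega

theorem sg_lt {q E : ℕ} (s : ℕ → ℕ) {e e' u u' : ℕ} (hu : u < cpf q E) (hu' : u' < cpf q E)
    (hne : s e ≠ s e') :
    sg (cpf q E) s (ch q E e u) < sg (cpf q E) s (ch q E e' u') ↔ s e < s e' := by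
  rw [sg_ch s hu, sg_ch s hu']
  constructor
  · intro h
    by_contra h1
    have h2 : s e' < s e := by omega
    have := mul_add_lt (v := u) h2 hu'
    omega
  · intro h
    have := mul_add_lt (v := u') h hu
    omega

/-- **part A2** -/
theorem copyStm : CopyStm := by
  intro q E l hl
  refine ⟨?_, fun s hs hW => sound_copy hl hs hW, ?_⟩
  · intro t' ht'
    obtain ⟨t, ht, u₁, u₂, u₃, u₄, h1, h2, h3, h4, rfl⟩ := mem_chT.1 ht'
    obtain ⟨ha, hc, hb, hd, hac, hab, had, hcb, hcd, hbd⟩ := hl _ ht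
    exact ⟨⟨ch_pos _ _ _ _, ch_lt ha h1⟩, ⟨ch_pos _ _ _ _, ch_lt hc h2⟩,
      ⟨ch_pos _ _ _ _, ch_lt hb h3⟩, ⟨ch_pos _ _ _ _, ch_lt hd h4⟩, ch_ne hac h1 h2,
      ch_ne hab h1 h3, ch_ne had h1 h4, ch_ne hcb h2 h3, ch_ne hcd h2 h4, ch_ne hbd h3 h4⟩
  · intro s hs hcr
    refine ⟨sg (cpf q E) s, ?_, ?_, ?_⟩
    · intro c hc c' hc' h
      rcases Nat.eq_zero_or_pos c with h0 | h0
      · rcases Nat.eq_zero_or_pos c' with h0' | h0'
        · rw [h0, h0']
        · exfalso
          unfold sg at h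
          rw [if_pos h0, if_neg h0'.ne'] at h
          omega
      · rcases Nat.eq_zero_or_pos c' with h0' | h0'
        · exfalso
          unfold sg at h
          rw [if_pos h0', if_neg h0.ne'] at h
          omega
        · obtain ⟨e, he, u, hu, rfl⟩ := exists_ch h0 hc
          obtain ⟨e', he', u', hu', rfl⟩ := exists_ch h0' hc'
          rw [sg_ch s hu, sg_ch s hu'] at h
          have h1 : s e = s e' := by
            rcases lt_trichotomy (s e) (s e') with h2 | h2 | h2
            · have := mul_add_lt (v := u') h2 hu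
              omega
            · exact h2
            · have := mul_add_lt (v := u) h2 hu'
              omega
          have h2 := hs e he e' he' h1
          subst h2
          have h3 : u = u' := by omega
          rw [h3]
    · intro c h0 hc
      unfold sg
      rw [if_pos rfl, if_neg h0.ne']
      omega
    · intro t' ht' hcrs
      obtain ⟨⟨⟨a, c⟩, ⟨b, d⟩⟩, ht, u₁, u₂, u₃, u₄, h1, h2, h3, h4, rfl⟩ := mem_chT.1 ht'
      obtain ⟨ha, hc, hb, hd, hac, hab, had, hcb, hcd, hbd⟩ := hl _ ht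
      dsimp only at ha hc hb hd hac hab had hcb hcd hbd h1 h2 h3 h4 hcrs
      have hn : ∀ x < E, ∀ y < E, x ≠ y → s x ≠ s y := fun x hx y hy hxy h => hxy (hs x hx y hy h)
      apply hcr _ ht
      have e1 : ∀ {x y : ℕ} {u v : ℕ}, x < E → y < E → x ≠ y → u < cpf q E → v < cpf q E →
          (sg (cpf q E) s (ch q E x u) < sg (cpf q E) s (ch q E y v) ↔ s x < s y) :=
        fun hx hy hxy hu hv => sg_lt s hu hv (hn _ hx _ hy hxy)
      unfold Crs Pool.Agent.Q229.QP4.btw at hcrs ⊢
      dsimp only at hcrs ⊢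
      rw [e1 ha hb hab h1 h3, e1 hb hc hcb.symm h3 h2, e1 hc hb hcb h2 h3,
        e1 hb ha hab.symm h3 h1, e1 ha hd had h1 h4, e1 hd hc hcd.symm h4 h2,
        e1 hc hd hcd h2 h4, e1 hd ha had.symm h4 h1] at hcrs
      exact hcrs

end Pool.Agent.Q149.QP4
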